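import Pool.Agent.Q112.HamGlue
import Pool.Agent.Q112.HamDraw

/-!
# A Cauchy-Schwarz form of the Birkhoff-Lewis inequality for plane graphs glued along a line

Finitely many graphs are drawn in a closed half plane with the same boundary vertices.  The average
over all pairs of the chromatic polynomial of the plane graph formed by one half and the mirror
image of another is, at every real `q ≥ 4`, at least the square of the average of the chromatic
polynomials of the halves, divided by `q ^ n`.
-/

set_option autoImplicit false

namespace Pool.Agent.Results.MP_0d034c_co.HalfPlaneAverages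

open Polynomial Pool.Agent.H207R2.BL

/-- Let `N i` be finitely many graphs drawn in the closed upper half plane with the same
boundary vertices `0, …, n-1` on the real axis, and let `glue (N i) (N j)` be the plane graph formed
by `N i` and the mirror image of `N j`.  For all real weights `a i` and all real `q ≥ 4`
`(∑ a_i P(N_i, q))² ≤ q^n ∑ a_i a_j P(glue N_i N_j, q)`. -/
theorem result (n : ℕ) (J : Type) [Fintype J] (V : J → Type) [∀ i, Finite (V i)]
    (N : ∀ i, SimpleGraph (V i ⊕ Fin n)) (hN : ∀ i, DrawnInHalfPlane (N i))
    (p : J → J → ℝ[X]) (r : J → ℝ[X]) (hp : ∀ i j, IsChrom (glue (N i) (N j)) (p i j))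
    (hr : ∀ i, IsChrom (N i) (r i)) (q : ℝ) (hq : 4 ≤ q) (a : J → ℝ) :
    (∑ i, a i * (r i).eval q) ^ 2 ≤ q ^ n * ∑ i, ∑ j, a i * a j * (p i j).eval q := by
  refine Pool.Agent.Q112.HA.family V N ?_ p hp r hr q hq a
  intro i
  obtain ⟨f, γ, h1, h2, h3, h4, h5⟩ := hN i
  exact crossless_of_drawing (N i) f γ h1 h2 h3 h4 h5

end Pool.Agent.Results.MP_0d034c_co.HalfPlaneAverages
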