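import Pool.Agent.Q93.LF.SplitCore

/-!
# Chromatic polynomials of layered plane graphs are moment sequences at every real `q ≥ 4`

`L` is a mirror symmetric layer with `n` bottom and `n` top vertices, `C` a cap with `n` boundary
vertices, and `G_k = capped L C k` is the plane graph `C`, `k` copies of `L`, mirror image of `C`.
The layers may be stacked strips or nested annuli: it is only assumed that the graph `C` with `k`
layers can be drawn in the closed half plane with its `n` free boundary vertices on the axis.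
-/

set_option autoImplicit false

namespace Pool.Agent.Results.MP_0d034c_co.LayerMoments

open Polynomial Pool.Agent.H207R2.BL Pool.Agent.Q93.LF

/-- Let `L` be symmetric, let all towers (`k` layers `L` below the cap `C`) be drawn in the half
plane, let `q ≥ 4` be real and `a k = P(G_k, q)` where `G_k = capped L C k` has `k` layers between
two caps.
(1) All Hankel forms `∑ c_i c_j a_(i+j)` are nonnegative.
(2) `a_(2m) ≥ 0` and `a_j^(2m) ≤ a_0^(2m-j) a_(2m)^j` for `j ≤ 2m`.
(3) If `a_(2m) = 0` for one `m ≥ 1` then `a_k = 0` for all `k ≥ 1`. -/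
theorem result (n : ℕ) (W V : Type) [Finite W] [Finite V] (L : SimpleGraph ((W ⊕ Fin n) ⊕ Fin n))
    (C : SimpleGraph (V ⊕ Fin n)) (hL : Symmetric L) (hT : ∀ k, DrawnInHalfPlane (tower L C k))
    (p : ℕ → ℝ[X]) (hp : ∀ k, IsChrom (capped L C k) (p k)) (q : ℝ) (hq : 4 ≤ q) :
    (∀ (K : ℕ) (c : Fin K → ℝ), 0 ≤ ∑ i, ∑ j, c i * c j * (p (i + j)).eval q) ∧
    (∀ m : ℕ, 0 ≤ (p (2 * m)).eval q) ∧
    (∀ m j : ℕ, j ≤ 2 * m → (p j).eval q ^ (2 * m) ≤
      (p 0).eval q ^ (2 * m - j) * (p (2 * m)).eval q ^ j) ∧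
    (∀ m : ℕ, 1 ≤ m → (p (2 * m)).eval q = 0 → ∀ k : ℕ, 1 ≤ k → (p k).eval q = 0) := by
  have hT' : ∀ k, Crossless (tower L C k) := fun k => crossless (hT k)
  have hcs := cs L C hL hT' p hp q hq
  exact ⟨fun K c => hankel L C hL hT' p hp q hq K c, hcs.nonneg, hcs.lyapunov,
    fun m _ hm k hk => hcs.zero m hm k hk⟩

end Pool.Agent.Results.MP_0d034c_co.LayerMoments
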