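import Pool.Agent.Q93.LF.SplitCore

/-!
# The Birkhoff-Lewis inequality for layered plane graphs from one small graph

`L` is a mirror symmetric layer with `n` bottom and `n` top vertices, `C` a cap with `n` boundary
vertices, and `G_k = capped L C k` is the plane graph `C`, `k` copies of `L`, mirror image of `C`.
The layers may be stacked strips or nested annuli: it is only assumed that the graph `C` with `k`
layers can be drawn in the closed half plane with its `n` free boundary vertices on the axis.
One plane graph which contains the cap with one layer and whose chromatic polynomial does not vanish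
at `q` gives `P(G_(2m), q) > 0` for all `m ≥ 1`; the other side `M` of this graph is arbitrary.
-/

set_option autoImplicit false

namespace Pool.Agent.Results.MP_0d034c_co.LayeredPositivity

open Polynomial Pool.Agent.H207R2.BL Pool.Agent.Q93.LF

/-- Let `L` be symmetric, let all towers (`k` layers `L` below the cap `C`) be drawn in the half
plane, and let `p k` be the chromatic polynomial of `G_k = capped L C k`.  Let `M` be any graph
drawn in the half plane with the same `n` boundary vertices.
(1) If `q ≥ 4` and `P(glue (stack L C) M, q) ≠ 0` then `P(G_(2m), q) > 0` for all `m ≥ 1`.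
(2) If no minor of `glue (stack L C) M` has minimum degree at least `5` then `P(G_(2m), q) > 0` for
all real `q > 4` and all `m ≥ 1`.
(3) The same if `glue (stack L C) M` is drawn in the plane and has at most eleven vertices. -/
theorem result (n : ℕ) (W V : Type) [Finite W] [Finite V] (L : SimpleGraph ((W ⊕ Fin n) ⊕ Fin n))
    (C : SimpleGraph (V ⊕ Fin n)) (hL : Symmetric L) (hT : ∀ k, DrawnInHalfPlane (tower L C k))
    (p : ℕ → ℝ[X]) (hp : ∀ k, IsChrom (capped L C k) (p k)) (V' : Type) [Finite V']
    (M : SimpleGraph (V' ⊕ Fin n)) (hM : DrawnInHalfPlane M) :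
    (∀ r : ℝ[X], IsChrom (glue (stack L C) M) r → ∀ q : ℝ, 4 ≤ q → r.eval q ≠ 0 →
      ∀ m : ℕ, 1 ≤ m → 0 < (p (2 * m)).eval q) ∧
    (MinorDegLe 4 (glue (stack L C) M) → ∀ q : ℝ, 4 < q →
      ∀ m : ℕ, 1 ≤ m → 0 < (p (2 * m)).eval q) ∧
    ((∃ f γ, IsDrawing (glue (stack L C) M) f γ) →
      Nat.card (((W ⊕ V ⊕ Fin n) ⊕ V') ⊕ Fin n) ≤ 11 → ∀ q : ℝ, 4 < q →
      ∀ m : ℕ, 1 ≤ m → 0 < (p (2 * m)).eval q) := by
  have main : ∀ r : ℝ[X], IsChrom (glue (stack L C) M) r → ∀ q : ℝ, 4 ≤ q → r.eval q ≠ 0 →
      ∀ m : ℕ, 1 ≤ m → 0 < (p (2 * m)).eval q := by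
    intro r hr q hq hne m hm
    obtain ⟨k, rfl⟩ := Nat.exists_eq_add_of_le hm
    rw [add_comm 1 k]
    exact positive_of_ne L C hL hT p hp q hq M hM r hr hne k
  refine ⟨main, ?_, ?_⟩
  · intro hmin q hq4
    refine main _ (chr_spec _) q hq4.le (ne_of_gt ?_)
    exact minorDeg_pos 4 q (by exact_mod_cast hq4) _ hmin
  · rintro ⟨f, γ, hd⟩ hcard q hq4
    refine main _ (chr_spec _) q hq4.le (ne_of_gt ?_)
    exact Pool.Agent.Y406.SP.small_pos _ _ (Pool.Agent.Y865.RF.pl _ _ f γ hd) hcard q hq4

end Pool.Agent.Results.MP_0d034c_co.LayeredPositivity
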